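import Mathlib

set_option autoImplicit false

/-!
# Products of fine sets with inverse descent classes (MP_4faf9f_co)
-/

namespace Pool.Agent.Results.MP_4faf9f_co.Commute

/-- The descent set of a permutation of `n` letters, as a set of positions in `{1, ..., n - 1}`
(`Fin n` numbers the letters and their places from `0`). -/
def Des {n : ℕ} (π : Equiv.Perm (Fin n)) : Finset ℕ :=
  (Finset.range n).filter (fun k => ∃ (_ : 1 ≤ k) (h : k < n), π ⟨k, h⟩ < π ⟨k - 1, by omega⟩)

/-- The exponent of the monomial `x_{f 0} x_{f 1} ...`. -/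
noncomputable def content {n : ℕ} (f : Fin n → ℕ) : ℕ →₀ ℕ := ∑ i, Finsupp.single (f i) 1

/-- Gessel's fundamental quasisymmetric function `F_{n,D}`, as a power series in the variables
`x_0, x_1, ...`: the sum of the monomials `x_{f 0} ... x_{f (n-1)}` over all weakly increasing
sequences `f` with a strict increase at the positions in `D`. -/
noncomputable def F (n : ℕ) (D : Finset ℕ) : MvPowerSeries ℕ ℤ := fun m =>
  (Nat.card {f : Fin n → ℕ // Monotone f ∧
    (∀ k ∈ D, ∀ (_ : 1 ≤ k) (h : k < n), f ⟨k - 1, by omega⟩ < f ⟨k, h⟩) ∧ content f = m} : ℤ)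

/-- `Q(A)` for a multiset `A` of permutations. -/
noncomputable def Q {n : ℕ} (A : Multiset (Equiv.Perm (Fin n))) : MvPowerSeries ℕ ℤ :=
  (A.map (fun π => F n (Des π))).sum

/-- A power series is symmetric if it does not change when the variables are permuted. -/
def IsSymm (q : MvPowerSeries ℕ ℤ) : Prop :=
  ∀ (σ : Equiv.Perm ℕ) (m : ℕ →₀ ℕ), MvPowerSeries.coeff (m.mapDomain σ) q =
    MvPowerSeries.coeff m q

/-- The inverse descent class `D_{n,J}^{-1}`. -/
def invDes (n : ℕ) (J : Finset ℕ) : Finset (Equiv.Perm (Fin n)) :=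
  Finset.univ.filter (fun π => Des π⁻¹ = J)

/-- The product of two sets of permutations, as a multiset. -/
def mul {n : ℕ} (A B : Finset (Equiv.Perm (Fin n))) : Multiset (Equiv.Perm (Fin n)) :=
  (A ×ˢ B).val.map (fun p => p.1 * p.2)

/-! ### monotone sequences with a given content -/

variable {n : ℕ}

theorem content_eq_iff (f g : Fin n → ℕ) :
    content f = content g ↔ (List.ofFn f).Perm (List.ofFn g) := by
  have h : ∀ f : Fin n → ℕ, content f = Multiset.toFinsupp (List.ofFn f : Multiset ℕ) := by
    intro f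
    have h1 : ((List.ofFn f : List ℕ) : Multiset ℕ) = ∑ i : Fin n, {f i} := by
      have h2 := Multiset.sum_map_singleton (Finset.univ.val.map f)
      rw [Multiset.map_map] at h2
      rw [← Fin.univ_val_map, ← h2]
      rfl
    rw [h1, map_sum]
    simp [content, Multiset.toFinsupp_singleton]
  rw [h, h, Multiset.toFinsupp.injective.eq_iff, Multiset.coe_eq_coe]

theorem mono_unique {f g : Fin n → ℕ} (hf : Monotone f) (hg : Monotone g)
    (h : content f = content g) : f = g :=
  List.ofFn_injective (((content_eq_iff f g).1 h).eq_of_sortedLE hf.sortedLE_ofFn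
    hg.sortedLE_ofFn)

theorem content_comp (f : Fin n → ℕ) (σ : Equiv.Perm (Fin n)) :
    content (f ∘ σ) = content f :=
  Equiv.sum_comp σ (fun i => Finsupp.single (f i) 1)

theorem content_map (τ : Equiv.Perm ℕ) (f : Fin n → ℕ) :
    content (τ ∘ f) = (content f).mapDomain τ := by
  simp [content, Finsupp.mapDomain_finsetSum, Finsupp.mapDomain_single]

/-- `π` increases on the fibres of `f`. -/
def Inc (π : Equiv.Perm (Fin n)) (f : Fin n → ℕ) : Prop := ∀ i j, i < j → f i = f j → π i < π j

theorem sort_exists (w f : Fin n → ℕ) (hf : Monotone f) (hc : content w = content f) :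
    ∃ u : Equiv.Perm (Fin n), w ∘ u = f ∧ Inc u f := by
  have h1 : w ∘ Tuple.sort w = f :=
    mono_unique (Tuple.monotone_sort w) hf (by rw [content_comp, hc])
  refine ⟨Tuple.sort w, h1, fun i j hij hf2 => ?_⟩
  have h2 := (Tuple.eq_sort_iff (f := w) (σ := Tuple.sort w)).1 rfl
  refine h2.2 i j hij ?_
  rw [← h1] at hf2
  exact hf2

theorem sort_unique (w f : Fin n → ℕ) (hf : Monotone f) (u u' : Equiv.Perm (Fin n))
    (h1 : w ∘ u = f) (h2 : Inc u f) (h1' : w ∘ u' = f) (h2' : Inc u' f) : u = u' := by
  have key : ∀ u : Equiv.Perm (Fin n), w ∘ u = f → Inc u f → u = Tuple.sort w := by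
    intro u h1 h2
    rw [Tuple.eq_sort_iff]
    refine ⟨by rw [h1]; exact hf, fun i j hij h => h2 i j hij ?_⟩
    rw [← h1]
    exact h
  rw [key u h1 h2, key u' h1' h2']

/-- For a weakly increasing `f`: strict increase of `f` at the descents of `π` is the same as
`π` increasing on the fibres of `f`. -/
theorem inc_iff (π : Equiv.Perm (Fin n)) (f : Fin n → ℕ) (hf : Monotone f) :
    (∀ k ∈ Des π, ∀ (_ : 1 ≤ k) (h : k < n), f ⟨k - 1, by omega⟩ < f ⟨k, h⟩) ↔ Inc π f := by
  constructor
  · intro h i j hij hfij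
    have key : ∀ (d : ℕ) (i : Fin n) (h : i.1 + d < n), f i = f ⟨i.1 + d, h⟩ → 1 ≤ d →
        π i < π ⟨i.1 + d, h⟩ := by
      intro d
      induction d with
      | zero => intro i _ _ h; omega
      | succ d ih =>
        intro i hd hfd _
        have hlast : π ⟨i.1 + d, by omega⟩ < π ⟨i.1 + (d + 1), hd⟩ := by
          by_contra hcon
          have hne : π ⟨i.1 + d, by omega⟩ ≠ π ⟨i.1 + (d + 1), hd⟩ := fun he => by
            have := congrArg Fin.val (π.injective he)
            simp only at this
            omega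
          have hmem : i.1 + (d + 1) ∈ Des π := by
            rw [Des, Finset.mem_filter, Finset.mem_range]
            refine ⟨hd, by omega, hd, ?_⟩
            exact lt_of_le_of_ne (not_lt.1 hcon) hne.symm
          have h3 := h _ hmem (by omega) hd
          have h4 : f i ≤ f ⟨i.1 + (d + 1) - 1, by omega⟩ := hf (by
            rw [Fin.le_def]; simp only; omega)
          omega
        rcases Nat.eq_zero_or_pos d with rfl | hd0
        · exact hlast
        · refine lt_trans (ih i (by omega) ?_ hd0) hlast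
          apply le_antisymm
          · exact hf (by rw [Fin.le_def]; simp only; omega)
          · rw [hfd]
            exact hf (by rw [Fin.le_def]; simp only; omega)
    have h1 : i.1 < j.1 := hij
    have h2 := key (j.1 - i.1) i (by omega) (by
      rw [hfij]; congr 1; apply Fin.ext; simp only; omega) (by omega)
    have h3 : (⟨i.1 + (j.1 - i.1), by omega⟩ : Fin n) = j := Fin.ext (by simp only; omega)
    rwa [h3] at h2
  · intro h k hk hk1 hkn
    rw [Des, Finset.mem_filter] at hk
    obtain ⟨_, _, _, h3⟩ := hk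
    have h4 : f ⟨k - 1, by omega⟩ ≤ f ⟨k, hkn⟩ := hf (by rw [Fin.le_def]; simp only; omega)
    refine lt_of_le_of_ne h4 fun h5 => ?_
    have h6 := h ⟨k - 1, by omega⟩ ⟨k, hkn⟩ (by rw [Fin.lt_def]; simp only; omega) h5
    exact absurd (lt_trans h3 h6) (lt_irrefl _)

open Classical in
/-- coefficients of the fundamental quasisymmetric functions -/
theorem coeff_F (π : Equiv.Perm (Fin n)) (f : Fin n → ℕ) (hf : Monotone f) :
    MvPowerSeries.coeff (content f) (F n (Des π)) = if Inc π f then 1 else 0 := by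
  change (Nat.card {g : Fin n → ℕ // Monotone g ∧
    (∀ k ∈ Des π, ∀ (_ : 1 ≤ k) (h : k < n), g ⟨k - 1, by omega⟩ < g ⟨k, h⟩) ∧
      content g = content f} : ℤ) = _
  split_ifs with h
  · have : Unique {g : Fin n → ℕ // Monotone g ∧
      (∀ k ∈ Des π, ∀ (_ : 1 ≤ k) (h : k < n), g ⟨k - 1, by omega⟩ < g ⟨k, h⟩) ∧
        content g = content f} :=
      { default := ⟨f, hf, (inc_iff π f hf).2 h, rfl⟩
        uniq := fun g => Subtype.ext (mono_unique g.2.1 hf g.2.2.2) }
    rw [Nat.card_unique]
    rfl
  · have : IsEmpty {g : Fin n → ℕ // Monotone g ∧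
      (∀ k ∈ Des π, ∀ (_ : 1 ≤ k) (h : k < n), g ⟨k - 1, by omega⟩ < g ⟨k, h⟩) ∧
        content g = content f} := by
      constructor
      rintro ⟨g, hg1, hg2, hg3⟩
      have := mono_unique hg1 hf hg3
      subst this
      exact h ((inc_iff π g hg1).1 hg2)
    rw [Nat.card_of_isEmpty]
    rfl

theorem coeff_F_zero (π : Equiv.Perm (Fin n)) (m : ℕ →₀ ℕ)
    (hm : ¬ ∃ f : Fin n → ℕ, Monotone f ∧ content f = m) :
    MvPowerSeries.coeff m (F n (Des π)) = 0 := by
  change (Nat.card {g : Fin n → ℕ // Monotone g ∧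
    (∀ k ∈ Des π, ∀ (_ : 1 ≤ k) (h : k < n), g ⟨k - 1, by omega⟩ < g ⟨k, h⟩) ∧
      content g = m} : ℤ) = _
  have : IsEmpty {g : Fin n → ℕ // Monotone g ∧
      (∀ k ∈ Des π, ∀ (_ : 1 ≤ k) (h : k < n), g ⟨k - 1, by omega⟩ < g ⟨k, h⟩) ∧
        content g = m} := by
    constructor
    rintro ⟨g, hg1, hg2, hg3⟩
    exact hm ⟨g, hg1, hg3⟩
  rw [Nat.card_of_isEmpty]
  rfl

open Classical in
theorem coeff_Q (A : Multiset (Equiv.Perm (Fin n))) (f : Fin n → ℕ) (hf : Monotone f) :
    MvPowerSeries.coeff (content f) (Q A) = (A.countP (fun π => Inc π f) : ℤ) := by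
  rw [Q, map_multiset_sum, Multiset.map_map]
  induction A using Multiset.induction_on with
  | empty => simp
  | cons a A ih =>
    rw [Multiset.map_cons, Multiset.sum_cons, ih, Multiset.countP_cons]
    simp only [Function.comp]
    rw [coeff_F a f hf]
    push_cast
    ring

theorem coeff_Q_zero (A : Multiset (Equiv.Perm (Fin n))) (m : ℕ →₀ ℕ)
    (hm : ¬ ∃ f : Fin n → ℕ, Monotone f ∧ content f = m) :
    MvPowerSeries.coeff m (Q A) = 0 := by
  rw [Q, map_multiset_sum, Multiset.map_map]
  apply Multiset.sum_eq_zero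
  intro x hx
  obtain ⟨π, _, rfl⟩ := Multiset.mem_map.1 hx
  exact coeff_F_zero π m hm

/-! ### the main bijections -/

theorem ais (σ : Equiv.Perm (Fin n)) (x : Fin n) : σ (σ⁻¹ x) = x := σ.apply_symm_apply x

theorem ias (σ : Equiv.Perm (Fin n)) (x : Fin n) : σ⁻¹ (σ x) = x := σ.symm_apply_apply x

/-- encoding of the pair `(h, f ∘ v)` -/
def enc (N : ℕ) (f h : Fin n → ℕ) (v : Equiv.Perm (Fin n)) : Fin n → ℕ :=
  fun i => N * h i + f (v i)

open Classical in
/-- the encoded pairs -/
noncomputable def GG (N : ℕ) (f h : Fin n → ℕ) : Finset (Fin n → ℕ) :=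
  (Finset.univ.filter (fun v => Inc v h)).image (enc N f h)

theorem enc_div (N : ℕ) (f h : Fin n → ℕ) (hf : ∀ i, f i < N) (v : Equiv.Perm (Fin n))
    (i : Fin n) : enc N f h v i / N = h i := by
  have hN : 0 < N := lt_of_le_of_lt (Nat.zero_le _) (hf (v i))
  rw [enc, Nat.mul_add_div hN, Nat.div_eq_of_lt (hf _), add_zero]

theorem enc_mod (N : ℕ) (f h : Fin n → ℕ) (hf : ∀ i, f i < N) (v : Equiv.Perm (Fin n))
    (i : Fin n) : enc N f h v i % N = f (v i) := by
  rw [enc, Nat.mul_add_mod, Nat.mod_eq_of_lt (hf _)]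

open Classical in
/-- the shape of the elements of `GG` -/
theorem mem_GG (N : ℕ) (f h : Fin n → ℕ) (hf : ∀ i, f i < N) (hfm : Monotone f)
    (hhm : Monotone h) (g : Fin n → ℕ) : g ∈ GG N f h ↔
      Monotone g ∧ (fun i => g i / N) = h ∧ content (fun i => g i % N) = content f := by
  rw [GG, Finset.mem_image]
  constructor
  · rintro ⟨v, hv, rfl⟩
    rw [Finset.mem_filter] at hv
    refine ⟨?_, funext fun i => enc_div N f h hf v i, ?_⟩
    · intro i j hij
      rcases eq_or_lt_of_le hij with rfl | hlt
      · exact le_rfl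
      · rcases eq_or_lt_of_le (hhm hij) with he | hl
        · have h1 := hfm (hv.2 i j hlt he).le
          unfold enc
          rw [he]
          omega
        · have h1 := hf (v i)
          have h2 : N * (h i + 1) ≤ N * h j := Nat.mul_le_mul_left N hl
          unfold enc
          rw [mul_add, mul_one] at h2
          omega
    · have h1 : (fun i => enc N f h v i % N) = f ∘ v := funext fun i => enc_mod N f h hf v i
      rw [h1, content_comp]
  · rintro ⟨hg, h1, h2⟩
    obtain ⟨u, hu1, hu2⟩ := sort_exists (fun i => g i % N) f hfm h2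
    refine ⟨u⁻¹, ?_, ?_⟩
    · rw [Finset.mem_filter]
      refine ⟨Finset.mem_univ _, fun i j hij hh => ?_⟩
      have e1 : ∀ i, f (u⁻¹ i) = g i % N := by
        intro i
        rw [← hu1]
        simp
      have h3 : g i / N = g j / N := by
        have h3 : g i / N = h i := congrFun h1 i
        have h4 : g j / N = h j := congrFun h1 j
        rw [h3, h4, hh]
      have h5 : g i % N ≤ g j % N := by
        have h6 := hg hij.le
        have h7 := Nat.div_add_mod (g i) N
        have h8 := Nat.div_add_mod (g j) N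
        rw [h3] at h7
        omega
      by_contra hcon
      have hne : u⁻¹ i ≠ u⁻¹ j := fun he => (ne_of_lt hij) (u⁻¹.injective he)
      have hlt : u⁻¹ j < u⁻¹ i := lt_of_le_of_ne (not_lt.1 hcon) hne.symm
      have h9 : f (u⁻¹ j) = f (u⁻¹ i) := by
        apply le_antisymm (hfm hlt.le)
        rw [e1, e1]
        exact h5
      have h10 := hu2 _ _ hlt h9
      rw [ais, ais] at h10
      exact absurd (lt_trans h10 hij) (lt_irrefl _)
    · funext i
      unfold enc
      have e1 : f (u⁻¹ i) = g i % N := by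
        rw [← hu1]
        simp
      rw [e1, ← h1]
      exact Nat.div_add_mod _ _

open Classical in
theorem count_fiber (N : ℕ) (f h : Fin n → ℕ) (hf : ∀ i, f i < N) (hfm : Monotone f)
    (b : Equiv.Perm (Fin n)) :
    (Finset.univ.filter (fun v : Equiv.Perm (Fin n) => Inc v h ∧ Inc (b * v⁻¹) f)).card =
      ((GG N f h).filter (fun g => Inc b g)).card := by
  refine Finset.card_bij (fun v _ => enc N f h v) ?_ ?_ ?_
  · intro v hv
    rw [Finset.mem_filter] at hv
    rw [Finset.mem_filter, GG]
    refine ⟨Finset.mem_image_of_mem _ (by rw [Finset.mem_filter]; exact ⟨Finset.mem_univ _,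
      hv.2.1⟩), fun i j hij hg => ?_⟩
    have e1 : h i = h j := by
      rw [← enc_div N f h hf v i, ← enc_div N f h hf v j, hg]
    have e2 : f (v i) = f (v j) := by
      rw [← enc_mod N f h hf v i, ← enc_mod N f h hf v j, hg]
    have h1 := hv.2.2 _ _ (hv.2.1 i j hij e1) e2
    simpa [ias] using h1
  · intro v hv v' hv' hvv
    rw [Finset.mem_filter] at hv hv'
    have e : ∀ i, f (v i) = f (v' i) := fun i => by
      rw [← enc_mod N f h hf v i, ← enc_mod N f h hf v' i]
      exact congrArg (· % N) (congrFun hvv i)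
    have h1 := sort_unique (fun a => f (v (b⁻¹ a))) f hfm (b * v⁻¹) (b * v'⁻¹)
      (funext fun i => by simp) hv.2.2 (funext fun i => by
        simp only [Function.comp, Equiv.Perm.mul_apply, ias]
        rw [e]
        simp) hv'.2.2
    have h2 : v⁻¹ = v'⁻¹ := mul_left_cancel h1
    exact inv_injective h2
  · intro g hg
    rw [Finset.mem_filter, GG, Finset.mem_image] at hg
    obtain ⟨⟨v0, hv0, rfl⟩, hb⟩ := hg
    rw [Finset.mem_filter] at hv0
    obtain ⟨u, hu1, hu2⟩ := sort_exists (fun a => f (v0 (b⁻¹ a))) f hfm (by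
      have h1 := content_comp f (v0 * b⁻¹)
      rw [← h1]
      congr 1)
    have e1 : ∀ i, f ((u⁻¹ * b) i) = f (v0 i) := by
      intro i
      have h1 := congrFun hu1 ((u⁻¹ * b) i)
      simp only [Function.comp, Equiv.Perm.mul_apply, ais,
        ias] at h1
      rw [Equiv.Perm.mul_apply, ← h1]
    refine ⟨u⁻¹ * b, ?_, ?_⟩
    · rw [Finset.mem_filter]
      refine ⟨Finset.mem_univ _, ?_, ?_⟩
      · intro i j hij hh
        have h2 : f (v0 i) ≤ f (v0 j) := hfm (hv0.2 i j hij hh).le
        by_contra hcon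
        have hne : (u⁻¹ * b) i ≠ (u⁻¹ * b) j := fun he =>
          (ne_of_lt hij) ((u⁻¹ * b).injective he)
        have hlt : (u⁻¹ * b) j < (u⁻¹ * b) i := lt_of_le_of_ne (not_lt.1 hcon) hne.symm
        have h9 : f ((u⁻¹ * b) j) = f ((u⁻¹ * b) i) := by
          apply le_antisymm (hfm hlt.le)
          rw [e1, e1]
          exact h2
        have h10 := hu2 _ _ hlt h9
        have h11 : enc N f h v0 i = enc N f h v0 j := by
          unfold enc
          rw [hh, ← e1 i, ← e1 j, h9]
        have h12 := hb i j hij h11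
        simp only [Equiv.Perm.mul_apply, ais] at h10
        exact absurd (lt_trans h10 h12) (lt_irrefl _)
      · have : b * (u⁻¹ * b)⁻¹ = u := by group
        rw [this]
        exact hu2
    · funext i
      unfold enc
      rw [e1]

/-! ### exchanging the two coordinates -/

theorem tau_inv (N : ℕ) : Function.Involutive
    (fun x : ℕ => if x < N * N then (x % N) * N + x / N else x) := by
  intro x
  by_cases hx : x < N * N
  · have hN : 0 < N := by
      rcases Nat.eq_zero_or_pos N with h | h
      · subst h; simp at hx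
      · exact h
    have h1 : x % N < N := Nat.mod_lt _ hN
    have h2 : x / N < N := Nat.div_lt_of_lt_mul hx
    have h3 : (x % N) * N + x / N < N * N := by nlinarith
    simp only [if_pos hx, if_pos h3]
    rw [mul_comm (x % N) N, Nat.mul_add_mod, Nat.mod_eq_of_lt h2, Nat.mul_add_div hN,
      Nat.div_eq_of_lt h2, add_zero, mul_comm]
    exact Nat.div_add_mod x N
  · simp only [if_neg hx]

/-- exchange of the digits in base `N` of the numbers below `N * N` -/
def tau (N : ℕ) : Equiv.Perm ℕ := (tau_inv N).toPerm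

theorem tau_div (N x : ℕ) (hx : x < N * N) : tau N x / N = x % N ∧ tau N x % N = x / N := by
  have hN : 0 < N := by
    rcases Nat.eq_zero_or_pos N with h | h
    · subst h; simp at hx
    · exact h
  have h2 : x / N < N := Nat.div_lt_of_lt_mul hx
  have h3 : tau N x = (x % N) * N + x / N := by
    change (if x < N * N then (x % N) * N + x / N else x) = _
    rw [if_pos hx]
  rw [h3, mul_comm (x % N) N, Nat.mul_add_mod, Nat.mod_eq_of_lt h2, Nat.mul_add_div hN,
    Nat.div_eq_of_lt h2, add_zero]
  exact ⟨rfl, rfl⟩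

/-- the increasing rearrangement -/
def srt (w : Fin n → ℕ) : Fin n → ℕ := w ∘ Tuple.sort w

theorem srt_mono (w : Fin n → ℕ) : Monotone (srt w) := Tuple.monotone_sort w

theorem content_srt (w : Fin n → ℕ) : content (srt w) = content w := content_comp w _

theorem swap_mem (N : ℕ) (f h : Fin n → ℕ) (hf : ∀ i, f i < N) (hh : ∀ i, h i < N)
    (hfm : Monotone f) (hhm : Monotone h) (g : Fin n → ℕ) (hg : g ∈ GG N f h) :
    srt (tau N ∘ g) ∈ GG N h f := by
  rw [mem_GG N f h hf hfm hhm] at hg
  rw [mem_GG N h f hh hhm hfm]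
  obtain ⟨h1, h2, h3⟩ := hg
  have hlt : ∀ i, g i < N * N := by
    intro i
    have h4 : g i / N = h i := congrFun h2 i
    have h5 : g i / N < N := by rw [h4]; exact hh i
    exact (Nat.div_lt_iff_lt_mul (lt_of_le_of_lt (Nat.zero_le _) (hf i))).1 h5
  have e1 : (fun i => srt (tau N ∘ g) i / N) = (fun i => g i % N) ∘ Tuple.sort (tau N ∘ g) :=
    funext fun i => (tau_div N _ (hlt _)).1
  have e2 : (fun i => srt (tau N ∘ g) i % N) = (fun i => g i / N) ∘ Tuple.sort (tau N ∘ g) :=
    funext fun i => (tau_div N _ (hlt _)).2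
  refine ⟨srt_mono _, ?_, ?_⟩
  · apply mono_unique _ hfm
    · rw [e1, content_comp, h3]
    · intro i j hij
      exact Nat.div_le_div_right (srt_mono _ hij)
  · rw [e2, content_comp, h2]

theorem swap_swap (N : ℕ) (g : Fin n → ℕ) (hg : Monotone g) :
    srt (tau N ∘ srt (tau N ∘ g)) = g := by
  apply mono_unique (srt_mono _) hg
  rw [content_srt, content_map, content_srt, ← content_map, ← Function.comp_assoc]
  congr 1
  funext i
  exact tau_inv N (g i)

open Classical in
theorem swap_sum (B : Finset (Equiv.Perm (Fin n))) (hB : IsSymm (Q B.val)) (N : ℕ)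
    (f h : Fin n → ℕ) (hf : ∀ i, f i < N) (hh : ∀ i, h i < N)
    (hfm : Monotone f) (hhm : Monotone h) :
    ∑ g ∈ GG N f h, (B.filter (fun b => Inc b g)).card =
      ∑ g ∈ GG N h f, (B.filter (fun b => Inc b g)).card := by
  refine Finset.sum_bij' (fun g _ => srt (tau N ∘ g)) (fun g _ => srt (tau N ∘ g))
    (fun g hg => swap_mem N f h hf hh hfm hhm g hg)
    (fun g hg => swap_mem N h f hh hf hhm hfm g hg)
    (fun g hg => swap_swap N g ((mem_GG N f h hf hfm hhm g).1 hg).1)
    (fun g hg => swap_swap N g ((mem_GG N h f hh hhm hfm g).1 hg).1) ?_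
  intro g hg
  have hgm := ((mem_GG N f h hf hfm hhm g).1 hg).1
  have h1 := coeff_Q B.val g hgm
  have h2 := coeff_Q B.val (srt (tau N ∘ g)) (srt_mono _)
  rw [content_srt, content_map, hB, h1] at h2
  have h3 : ∀ g : Fin n → ℕ, (B.filter (fun b => Inc b g)).card =
      B.val.countP (fun b => Inc b g) := by
    intro g
    rw [Multiset.countP_eq_card_filter]
    rfl
  rw [h3, h3]
  exact_mod_cast h2

open Classical in
theorem count_swap (f h : Fin n → ℕ) (b : Equiv.Perm (Fin n)) :
    (Finset.univ.filter (fun v : Equiv.Perm (Fin n) => Inc v h ∧ Inc (v⁻¹ * b) f)).card =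
      (Finset.univ.filter (fun u : Equiv.Perm (Fin n) => Inc u f ∧ Inc (b * u⁻¹) h)).card := by
  refine Finset.card_bij' (fun v _ => v⁻¹ * b) (fun u _ => b * u⁻¹) ?_ ?_ ?_ ?_
  · intro v hv
    rw [Finset.mem_filter] at hv ⊢
    refine ⟨Finset.mem_univ _, hv.2.2, ?_⟩
    have : b * (v⁻¹ * b)⁻¹ = v := by group
    rw [this]
    exact hv.2.1
  · intro u hu
    rw [Finset.mem_filter] at hu ⊢
    refine ⟨Finset.mem_univ _, hu.2.2, ?_⟩
    have : (b * u⁻¹)⁻¹ * b = u := by group
    rw [this]
    exact hu.2.1
  · intro v _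
    group
  · intro u _
    group

open Classical in
theorem sum_eq (B : Finset (Equiv.Perm (Fin n))) (hB : IsSymm (Q B.val))
    (f h : Fin n → ℕ) (hfm : Monotone f) (hhm : Monotone h) :
    ∑ b ∈ B, (Finset.univ.filter (fun v : Equiv.Perm (Fin n) =>
      Inc v h ∧ Inc (b * v⁻¹) f)).card =
    ∑ b ∈ B, (Finset.univ.filter (fun v : Equiv.Perm (Fin n) =>
      Inc v h ∧ Inc (v⁻¹ * b) f)).card := by
  obtain ⟨N, hf, hh⟩ : ∃ N, (∀ i, f i < N) ∧ ∀ i, h i < N := by
    refine ⟨∑ i, (f i + h i) + 1, fun i => ?_, fun i => ?_⟩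
    · have := Finset.single_le_sum (f := fun i => f i + h i) (fun i _ => Nat.zero_le _)
        (Finset.mem_univ i)
      omega
    · have := Finset.single_le_sum (f := fun i => f i + h i) (fun i _ => Nat.zero_le _)
        (Finset.mem_univ i)
      omega
  have key : ∀ S : Finset (Fin n → ℕ), ∑ b ∈ B, (S.filter (fun g => Inc b g)).card =
      ∑ g ∈ S, (B.filter (fun b => Inc b g)).card := by
    intro S
    simp_rw [Finset.card_filter]
    exact Finset.sum_comm
  rw [Finset.sum_congr rfl (fun b _ => count_fiber N f h hf hfm b), key,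
    swap_sum B hB N f h hf hh hfm hhm, ← key]
  refine Finset.sum_congr rfl fun b _ => ?_
  rw [count_swap, count_fiber N h f hh hhm b]

/-! ### inverse descent classes -/

/-- a weakly increasing sequence with jumps at `J` -/
def jump (n : ℕ) (J : Finset ℕ) : Fin n → ℕ := fun i => (J.filter (fun k => k ≤ i.1)).card

theorem jump_mono (J : Finset ℕ) : Monotone (jump n J) := by
  intro i j hij
  refine Finset.card_le_card fun k hk => ?_
  rw [Finset.mem_filter] at hk ⊢
  exact ⟨hk.1, hk.2.trans hij⟩

theorem des_subset_iff (J : Finset ℕ) (v : Equiv.Perm (Fin n)) :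
    Des v ⊆ J ↔ Inc v (jump n J) := by
  rw [← inc_iff v _ (jump_mono J)]
  constructor
  · intro h k hk h1 h2
    refine Finset.card_lt_card ?_
    rw [Finset.ssubset_iff_of_subset]
    · refine ⟨k, ?_, ?_⟩
      · rw [Finset.mem_filter]; exact ⟨h hk, le_rfl⟩
      · rw [Finset.mem_filter]
        rintro ⟨_, h3⟩
        simp only at h3
        omega
    · intro l hl
      rw [Finset.mem_filter] at hl ⊢
      refine ⟨hl.1, ?_⟩
      have := hl.2
      simp only at this ⊢
      omega
  · intro h k hk
    have hk2 := hk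
    rw [Des, Finset.mem_filter] at hk2
    obtain ⟨_, h1, h2, _⟩ := hk2
    have h3 := h k hk h1 h2
    by_contra hcon
    have h4 : jump n J ⟨k, h2⟩ ≤ jump n J ⟨k - 1, by omega⟩ := by
      refine Finset.card_le_card fun l hl => ?_
      rw [Finset.mem_filter] at hl ⊢
      refine ⟨hl.1, ?_⟩
      have h5 := hl.2
      simp only at h5 ⊢
      have : l ≠ k := by rintro rfl; exact hcon hl.1
      omega
    omega

open Classical in
/-- counts for the subsets of `J` determine the counts for `J` -/
theorem moebius (T1 T2 : Finset ℕ → ℕ)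
    (h : ∀ J : Finset ℕ, ∑ I ∈ J.powerset, T1 I = ∑ I ∈ J.powerset, T2 I) :
    ∀ J : Finset ℕ, T1 J = T2 J := by
  intro J
  induction J using Finset.strongInduction with
  | H J ih =>
    have h1 := h J
    rw [← Finset.sum_erase_add _ _ (Finset.mem_powerset_self J),
      ← Finset.sum_erase_add _ _ (Finset.mem_powerset_self J)] at h1
    have h2 : ∑ I ∈ J.powerset.erase J, T1 I = ∑ I ∈ J.powerset.erase J, T2 I := by
      refine Finset.sum_congr rfl fun I hI => ih I ?_
      rw [Finset.mem_erase, Finset.mem_powerset] at hI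
      exact lt_of_le_of_ne hI.2 hI.1
    omega

open Classical in
theorem countP_mul (A D : Finset (Equiv.Perm (Fin n))) (f : Fin n → ℕ) :
    (mul A D).countP (fun π => Inc π f) =
      ∑ a ∈ A, (D.filter (fun d => Inc (a * d) f)).card := by
  rw [mul, Multiset.countP_map, ← Finset.filter_val, ← Finset.card_def, Finset.card_filter,
    Finset.sum_product]
  refine Finset.sum_congr rfl fun a _ => ?_
  rw [Finset.card_filter]

open Classical in
theorem countP_mul' (A D : Finset (Equiv.Perm (Fin n))) (f : Fin n → ℕ) :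
    (mul D A).countP (fun π => Inc π f) =
      ∑ a ∈ A, (D.filter (fun d => Inc (d * a) f)).card := by
  rw [countP_mul]
  simp_rw [Finset.card_filter]
  exact Finset.sum_comm

open Classical in
theorem sum_invDes (J : Finset ℕ) (p : Equiv.Perm (Fin n) → Prop) :
    ∑ I ∈ J.powerset, ((invDes n I).filter (fun d => p d)).card =
      (Finset.univ.filter (fun v : Equiv.Perm (Fin n) => Inc v (jump n J) ∧ p v⁻¹)).card := by
  rw [← Finset.card_biUnion]
  · refine Finset.card_bij' (fun d _ => d⁻¹) (fun v _ => v⁻¹) ?_ ?_ ?_ ?_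
    · intro d hd
      rw [Finset.mem_biUnion] at hd
      obtain ⟨I, hI, hd⟩ := hd
      rw [Finset.mem_filter, invDes, Finset.mem_filter] at hd
      rw [Finset.mem_filter, ← des_subset_iff, inv_inv]
      refine ⟨Finset.mem_univ _, ?_, hd.2⟩
      rw [hd.1.2]
      exact Finset.mem_powerset.1 hI
    · intro v hv
      rw [Finset.mem_filter, ← des_subset_iff] at hv
      rw [Finset.mem_biUnion]
      refine ⟨Des v, Finset.mem_powerset.2 hv.2.1, ?_⟩
      rw [Finset.mem_filter, invDes, Finset.mem_filter]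
      exact ⟨⟨Finset.mem_univ _, by rw [inv_inv]⟩, hv.2.2⟩
    · intro d _
      exact inv_inv d
    · intro v _
      exact inv_inv v
  · intro I _ I' _ hne
    rw [Function.onFun, Finset.disjoint_left]
    intro d hd hd'
    rw [Finset.mem_filter, invDes, Finset.mem_filter] at hd hd'
    exact hne (hd.1.2.symm.trans hd'.1.2)

/-- For every set `B` of permutations whose quasisymmetric function `Q(B)` is symmetric (in
particular for every fine set) and every `J`, the products of `B` with the inverse descent class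
of `J` in the two orders have the same quasisymmetric function. -/
theorem result (n : ℕ) (B : Finset (Equiv.Perm (Fin n))) (hB : IsSymm (Q B.val))
    (J : Finset ℕ) : Q (mul B (invDes n J)) = Q (mul (invDes n J) B) := by
  classical
  ext m
  by_cases hm : ∃ f : Fin n → ℕ, Monotone f ∧ content f = m
  · obtain ⟨f, hf, rfl⟩ := hm
    rw [coeff_Q _ f hf, coeff_Q _ f hf, countP_mul, countP_mul', Nat.cast_inj]
    refine moebius (fun J => ∑ a ∈ B, ((invDes n J).filter (fun d => Inc (a * d) f)).card)
      (fun J => ∑ a ∈ B, ((invDes n J).filter (fun d => Inc (d * a) f)).card) (fun J => ?_) J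
    have c1 := Finset.sum_comm (s := J.powerset) (t := B)
      (f := fun I a => ((invDes n I).filter (fun d => Inc (a * d) f)).card)
    have c2 := Finset.sum_comm (s := J.powerset) (t := B)
      (f := fun I a => ((invDes n I).filter (fun d => Inc (d * a) f)).card)
    refine c1.trans (Eq.trans ?_ c2.symm)
    have h1 : ∀ b ∈ B, ∑ I ∈ J.powerset, ((invDes n I).filter (fun d => Inc (b * d) f)).card =
        (Finset.univ.filter (fun v : Equiv.Perm (Fin n) =>
          Inc v (jump n J) ∧ Inc (b * v⁻¹) f)).card := fun b _ =>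
      sum_invDes J (fun d => Inc (b * d) f)
    have h2 : ∀ b ∈ B, ∑ I ∈ J.powerset, ((invDes n I).filter (fun d => Inc (d * b) f)).card =
        (Finset.univ.filter (fun v : Equiv.Perm (Fin n) =>
          Inc v (jump n J) ∧ Inc (v⁻¹ * b) f)).card := fun b _ =>
      sum_invDes J (fun d => Inc (d * b) f)
    rw [Finset.sum_congr rfl h1, Finset.sum_congr rfl h2]
    exact sum_eq B hB f (jump n J) hf (jump_mono J)
  · rw [coeff_Q_zero _ m hm, coeff_Q_zero _ m hm]

end Pool.Agent.Results.MP_4faf9f_co.Commute
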